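import Pool.Agent.LE.StmtsQZ
import Pool.Agent.Helper62_LQF.WFB

/-!
# Row WFU of squad LQZ: the upper Riccati inequality

As part (a) of `Helper62_LQF/WFB.lean` (helper62), with the other inequality.
-/

set_option autoImplicit false
set_option linter.unusedSectionVars false

open scoped BigOperators Matrix

noncomputable section

namespace Pool.Agent.LE.QZ.H52

open Pool.Agent.LE.QD Pool.Agent.LE.QF Pool.Agent.LE.QF.H62

theorem EK_neg {X : Type} [Fintype X] [DecidableEq X] (G : Matrix X X ℂ) (μ : X → ℂ) :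
    EK G (fun a => -μ a) = -EK G μ := by
  have h1 : ∀ a b, GD G (fun a => -μ a) a b = -GD G μ a b := by
    intro a b
    unfold GD
    rw [Matrix.mul_apply, Matrix.mul_apply, ← Finset.sum_neg_distrib]
    refine Finset.sum_congr rfl fun c _ => ?_
    rw [Matrix.mul_diagonal, Matrix.mul_diagonal]
    ring
  ext a b
  rw [Matrix.neg_apply]
  unfold EK
  rw [h1, mul_neg, Complex.neg_re]
  ring

theorem dl_neg {X : Type} [Fintype X] [DecidableEq X] (A : Matrix X X ℝ) : Dl (-A) = -Dl A := by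
  unfold Dl
  ext a b
  simp only [Matrix.sub_apply, Matrix.neg_apply, Matrix.diagonal_apply, Finset.sum_neg_distrib]
  split_ifs <;> ring

theorem qf_neg {X : Type} [Fintype X] [DecidableEq X] (A : Matrix X X ℝ) (f : X → ℝ) :
    qf (-A) f = -qf A f := by
  unfold qf
  rw [← Finset.sum_neg_distrib]
  refine Finset.sum_congr rfl fun a _ => ?_
  rw [Matrix.neg_mulVec, Pi.neg_apply]
  ring

theorem wfu (nrb : QF.NrbStmt) : WfuStmt := by
  intro C₀ hC₀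
  refine ⟨6 * C₀ ^ 2, ?_, ?_⟩
  · nlinarith [pow_le_pow_left₀ (by norm_num : (0 : ℝ) ≤ 1) hC₀ 2]
  intro X _ _ G μ 𝒩 κ τ δ N hG f
  obtain ⟨C₁, _, hn⟩ := nrb C₀ hC₀
  have hop : ∀ v : X → ℂ, n2 (G *ᵥ v) ≤ n2 v / κ ^ 2 := fun v =>
    ((hn X G μ 𝒩 κ τ δ N hG).1 v).1
  obtain ⟨hκ, hκ1, hτ, hκτ, hτκ⟩ := hG.hκ
  obtain ⟨hδ, hδ2, hN⟩ := hG.hδ
  have hs := hG.hs
  have hC0 : 0 < C₀ := by linarith
  have hKs : ∀ a b, KK G a b = KK G b a := by
    intro a b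
    unfold KK
    rw [hs a b]
  have hK0 : ∀ a b, 0 ≤ KK G a b := fun a b => sq_nonneg _
  set D : ℝ := ∑ a, ∑ b, ‖Fm G f a b‖ ^ 2 with hD
  set Q : ℝ := qf (Dl (KK G)) f with hQ
  have hD0 : 0 ≤ D := Finset.sum_nonneg fun a _ => Finset.sum_nonneg fun b _ => sq_nonneg _
  have hDQ : D = 2 * Q := by
    rw [hQ, qf_dl _ hKs, hD]
    exact Finset.sum_congr rfl fun a _ => Finset.sum_congr rfl fun b _ => norm_Fm G f a b
  have hQ0 : 0 ≤ Q := by linarith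
  have hk2 : ∀ a, ∑ b, KK G a b ≤ (1 + C₀ * δ) / τ := by
    intro a
    rw [le_div_iff₀ hτ]
    have := (abs_le.1 (hG.hk a)).2
    unfold KK
    linarith
  have hqt : qf (τ • Dl (KK G)) f = τ * Q := qf_smul _ _ _
  have e2 : qf (τ • Dl (KK G * KK G + EK G μ) - Dl (KK G)) f =
      τ * (qf (Dl (KK G * KK G)) f + qf (Dl (EK G μ)) f) - Q := by
    rw [qf_sub, qf_smul, dl_add, qf_add]
  have e3 : qf (Dl (KK G * KK G)) f ≤ (1 + C₀ * δ) / τ * D := by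
    rw [qf_dl_sq _ hKs, hD, Finset.mul_sum]
    have e0 : 0 ≤ ∑ c, (Dl (KK G) *ᵥ f) c ^ 2 := Finset.sum_nonneg fun c _ => sq_nonneg _
    refine (sub_le_self _ e0).trans (Finset.sum_le_sum fun c _ => ?_)
    have e : ∑ b, ‖Fm G f c b‖ ^ 2 = ∑ a, KK G c a * (f c - f a) ^ 2 :=
      Finset.sum_congr rfl fun b _ => norm_Fm G f c b
    rw [e]
    exact mul_le_mul_of_nonneg_right (hk2 c)
      (Finset.sum_nonneg fun b _ => mul_nonneg (hK0 _ _) (sq_nonneg _))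
  have e4 : qf (Dl (EK G μ)) f ≤ 2 * (C₀ * δ / κ) * D := by
    have h := EK_bound hκ hs hop (fun a => -μ a) (C₀ * δ) (mul_nonneg hC0.le hδ)
      (fun a => by rw [norm_neg]; exact hG.hμ a) f
    rw [EK_neg, dl_neg, qf_neg, ← hD] at h
    linarith
  have e5 : τ * (qf (Dl (KK G * KK G)) f + qf (Dl (EK G μ)) f) ≤
      τ * ((1 + C₀ * δ) / τ * D + 2 * (C₀ * δ / κ) * D) :=
    mul_le_mul_of_nonneg_left (by linarith) hτ.le
  have e6 : τ * ((1 + C₀ * δ) / τ * D + 2 * (C₀ * δ / κ) * D) =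
      (1 + C₀ * δ) * D + 2 * C₀ * δ * (τ / κ) * D := by
    field_simp
  have e7 : τ / κ ≤ C₀ := by
    rw [div_le_iff₀ hκ]
    exact hτκ
  have e8 : 2 * C₀ * δ * (τ / κ) * D ≤ 2 * C₀ * δ * C₀ * D := by
    refine mul_le_mul_of_nonneg_right (mul_le_mul_of_nonneg_left e7 ?_) hD0
    positivity
  have e9 : (1 + 6 * C₀ ^ 2 * δ) * (τ * Q) / τ = (1 + 6 * C₀ ^ 2 * δ) * Q := by
    field_simp
  rw [e2, hqt, e9]
  have hC2 : C₀ ≤ C₀ ^ 2 := le_self_pow₀ hC₀ (by norm_num)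
  have e10 : C₀ * (δ * Q) ≤ C₀ ^ 2 * (δ * Q) :=
    mul_le_mul_of_nonneg_right hC2 (mul_nonneg hδ hQ0)
  rw [hDQ] at e5 e6 e8
  nlinarith

end Pool.Agent.LE.QZ.H52
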